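import Pool.Agent.H.MP_dad682_an.D

set_option autoImplicit false

namespace Pool.Agent.H.MP_dad682_an

open Finset Filter Topology

section
variable {H : Type} [NormedAddCommGroup H] [InnerProductSpace ℂ H] {m n : Type} [Fintype m]
  [Fintype n]

/-- bound -/
def Bd (X : m → n → Op H) (c : ℝ) : Prop :=
  ∀ ξ : n → H, ∑ i, ‖∑ j, X i j (ξ j)‖ ^ 2 ≤ c ^ 2 * ∑ j, ‖ξ j‖ ^ 2

theorem nrm_le {X : m → n → Op H} {c : ℝ} (h0 : 0 ≤ c) (h : Bd X c) : nrm X ≤ c :=
  csInf_le ⟨0, fun _ h => h.1⟩ ⟨h0, h⟩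

theorem nrm_spec (X : m → n → Op H) : 0 ≤ nrm X ∧ Bd X (nrm X) := by
  refine IsClosed.csInf_mem (s := {c | 0 ≤ c ∧ Bd X c}) ?_ ?_ ⟨0, fun _ h => h.1⟩
  · simp only [Bd, Set.ofPred_and, Set.ofPred_forall]
    exact (isClosed_le continuous_const continuous_id).inter
      (isClosed_iInter fun ξ => isClosed_le continuous_const (by fun_prop))
  · refine ⟨√(∑ i, ∑ j, ‖X i j‖ ^ 2), Real.sqrt_nonneg _, fun ξ => ?_⟩
    rw [Real.sq_sqrt (by positivity), sum_mul]
    refine sum_le_sum fun i _ => le_trans ?_ (sum_mul_sq_le_sq_mul_sq _ _ _)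
    gcongr
    exact (norm_sum_le _ _).trans (sum_le_sum fun j _ => (X i j).le_opNorm _)

theorem bd_one {X : m → n → Op H} (h : nrm X ≤ 1) (ξ : n → H) :
    ∑ i, ‖∑ j, X i j (ξ j)‖ ^ 2 ≤ ∑ j, ‖ξ j‖ ^ 2 :=
  ((nrm_spec X).2 ξ).trans (mul_le_of_le_one_left (by positivity)
    (pow_le_one₀ (nrm_spec X).1 h))

theorem norm_le_sq {T : Op H} {c : ℝ} (h0 : 0 ≤ c) (h : ∀ x, ‖T x‖ ^ 2 ≤ c ^ 2 * ‖x‖ ^ 2) :
    ‖T‖ ≤ c :=
  T.opNorm_le_bound h0 fun x => (pow_le_pow_iff_left₀ (norm_nonneg _) (by positivity)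
    two_ne_zero).1 (by rw [mul_pow]; exact h x)

theorem nrm_one (T : Op H) : nrm (fun _ _ : Fin 1 => T) = ‖T‖ := by
  refine le_antisymm (nrm_le (norm_nonneg _) fun ξ => ?_) (norm_le_sq (nrm_spec _).1 fun x => ?_)
  · simp only [Fin.sum_univ_one, ← mul_pow]
    gcongr
    exact T.le_opNorm _
  · simpa using (nrm_spec (fun _ _ : Fin 1 => T)).2 fun _ => x

theorem rxc_le (X : m → n → Op H) {R : m → Op H} {C : n → Op H}
    (hR : nrm (fun (_ : Unit) j => R j) ≤ 1) (hC : nrm (fun i (_ : Unit) => C i) ≤ 1) :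
    ‖∑ i, ∑ j, R i * X i j * C j‖ ≤ nrm X := by
  refine norm_le_sq (nrm_spec X).1 fun x => ?_
  have h1 := bd_one hR fun i => ∑ j, X i j (C j x)
  have h2 := (nrm_spec X).2 fun j => C j x
  have h3 := bd_one hC fun _ => x
  simp only [univ_unique, sum_singleton, map_sum] at h1 h3
  simp only [_root_.sum_apply, mul_apply_eq_comp]
  exact h1.trans (h2.trans (by gcongr))

theorem cancel {Y b : ℝ} (h0 : 0 ≤ b) (h : Y ^ 2 ≤ Y * b) : Y ≤ b := by
  by_contra hc
  nlinarith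

theorem func_bd (X : m → n → Op H) (g : Op H →ₗ[ℂ] ℂ) (hg : ∀ x, ‖g x‖ ≤ ‖x‖) (v : n → ℂ) :
    ∑ i, ‖∑ j, g (X i j) * v j‖ ^ 2 ≤ nrm X ^ 2 * ∑ j, ‖v j‖ ^ 2 := by
  set y : m → ℂ := fun i => ∑ j, g (X i j) * v j with hy
  refine cancel (by positivity) ?_
  have e : ((∑ i, ‖y i‖ ^ 2 : ℝ) : ℂ) = g (∑ i, (starRingEnd ℂ) (y i) • ∑ j, v j • X i j) := by
    simp only [map_sum g, map_smul, smul_eq_mul, mul_comm (v _), Complex.ofReal_sum,
      Complex.ofReal_pow, ← Complex.conj_mul']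
    rfl
  have h1 := hg (∑ i, (starRingEnd ℂ) (y i) • ∑ j, v j • X i j)
  rw [← e, Complex.norm_real, Real.norm_of_nonneg (by positivity)] at h1
  have h2 : ‖∑ i, (starRingEnd ℂ) (y i) • ∑ j, v j • X i j‖ ≤
      √((∑ i, ‖y i‖ ^ 2) * (nrm X ^ 2 * ∑ j, ‖v j‖ ^ 2)) := by
    refine norm_le_sq (Real.sqrt_nonneg _) fun x => ?_
    have h3 := (nrm_spec X).2 fun j => v j • x
    simp only [norm_smul, mul_pow, ← sum_mul, map_smul] at h3
    rw [Real.sq_sqrt (by positivity), mul_assoc, mul_assoc]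
    refine le_trans ?_ ((sum_mul_sq_le_sq_mul_sq _ _ _).trans (by gcongr))
    gcongr
    simp only [_root_.sum_apply, _root_.smul_apply]
    exact (norm_sum_le _ _).trans (le_of_eq (by simp [norm_smul]))
  exact (Real.le_sqrt (by positivity) (by positivity)).1 (h1.trans h2)

theorem bd_of_pair {X : m → n → Op H} {c : ℝ} (h : ∀ (η : m → H) (ξ : n → H),
    ‖∑ i, inner ℂ (η i) (∑ j, X i j (ξ j))‖ ^ 2 ≤ (∑ i, ‖η i‖ ^ 2) * (c ^ 2 * ∑ j, ‖ξ j‖ ^ 2)) :
    Bd X c := fun ξ => by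
  refine cancel (by positivity) (le_trans (le_of_eq ?_) (h (fun i => ∑ j, X i j (ξ j)) ξ))
  simp only [inner_self_eq_norm_sq_to_K]
  norm_cast
  rw [sq_abs]

end

/-- index set -/
abbrev S : Type := Fin 2 × Option ℕ

/-- the Hilbert space -/
abbrev HH : Type := lp (fun _ : S => ℂ) 2

theorem hs (f : HH) : HasSum (fun s => ‖f s‖ ^ 2) (‖f‖ ^ 2) := by
  simpa using lp.hasSum_norm (p := 2) (by norm_num) f

/-- basis vector -/
noncomputable def ee (s : S) : HH := lp.single 2 s 1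

/-- diagonal entries -/
noncomputable def dd (T : Op HH) (s : S) : ℂ := T (ee s) s

/-- diagonal operators -/
def Dg (T : Op HH) : Prop := ∀ ξ s, T ξ s = dd T s * ξ s

theorem ee_norm (s : S) : ‖ee s‖ = 1 := by simp [ee, lp.norm_single]

theorem ee_inner (s : S) (ξ : HH) : inner ℂ (ee s) ξ = ξ s := by simp [ee, lp.inner_single_left]

theorem dd_le (T : Op HH) (s : S) : ‖dd T s‖ ≤ ‖T‖ :=
  (lp.norm_apply_le_norm (by norm_num) _ s).trans (by simpa [ee_norm] using T.le_opNorm (ee s))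

theorem dd_of {T : Op HH} {d : S → ℂ} (h : ∀ ξ s, T ξ s = d s * ξ s) : dd T = d ∧ Dg T := by
  have : dd T = d := funext fun s => by simp [dd, h, ee]
  exact ⟨this, fun ξ s => by rw [this, h]⟩

theorem Dg.ext {T T' : Op HH} (h : Dg T) (h' : Dg T') (e : dd T = dd T') : T = T' :=
  ContinuousLinearMap.ext fun ξ => lp.ext (funext fun s => by rw [h, h', e])

theorem diag_bd {m n : Type} [Fintype m] [Fintype n] {X : m → n → Op HH} (h : ∀ i j, Dg (X i j))
    {c : ℝ} (hc : ∀ s (v : n → ℂ), ∑ i, ‖∑ j, dd (X i j) s * v j‖ ^ 2 ≤ c ^ 2 * ∑ j, ‖v j‖ ^ 2) :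
    Bd X c := fun ξ => by
  refine hasSum_le (fun s => ?_) (hasSum_sum fun i _ => hs _)
    ((hasSum_sum fun j _ => hs (ξ j)).mul_left _)
  simpa only [lp.coeFn_sum, Finset.sum_apply, h _ _ _ _] using hc s fun j => ξ j s

theorem Dg.norm_le {T : Op HH} (h : Dg T) {c : ℝ} (h0 : 0 ≤ c) (hc : ∀ s, ‖dd T s‖ ≤ c) :
    ‖T‖ ≤ c := by
  rw [← nrm_one]
  refine nrm_le h0 (diag_bd (fun _ _ => h) fun s v => ?_)
  simp only [Fin.sum_univ_one, norm_mul, mul_pow]
  gcongr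
  exact hc s

theorem exists_diag (d : S → ℂ) {c : ℝ} (hc : ∀ s, ‖d s‖ ≤ c) : ∃ T, Dg T ∧ dd T = d := by
  have h0 : 0 ≤ c := (norm_nonneg _).trans (hc default)
  have hb : ∀ (ξ : HH) s, ‖d s * ξ s‖ ≤ ‖((c : ℂ) • ξ) s‖ := fun ξ s => by
    simp only [lp.coeFn_smul, Pi.smul_apply, smul_eq_mul, norm_mul, Complex.norm_real,
      Real.norm_of_nonneg h0]
    gcongr
    exact hc s
  let L : HH →ₗ[ℂ] HH :=
    { toFun := fun ξ => ⟨fun s => d s * ξ s, (lp.memℓp ((c : ℂ) • ξ)).mono' (hb ξ)⟩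
      map_add' := fun x y => lp.ext (funext fun s => mul_add _ _ _)
      map_smul' := fun a x => lp.ext (funext fun s => mul_left_comm _ _ _) }
  have := dd_of (T := L.mkContinuous c fun ξ => (lp.norm_mono (by norm_num) (hb ξ)).trans (by
    rw [norm_smul, Complex.norm_real, Real.norm_of_nonneg h0])) (d := d) fun _ _ => rfl
  exact ⟨_, this.2, this.1⟩

theorem dd_add (T T' : Op HH) (s : S) : dd (T + T') s = dd T s + dd T' s := rfl

theorem dd_smul (c : ℂ) (T : Op HH) (s : S) : dd (c • T) s = c * dd T s := rfl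

theorem Dg.star {T : Op HH} (h : Dg T) : dd (star T) = star (dd T) ∧ Dg (star T) :=
  dd_of fun ξ s => by
    have : T (ee s) = dd T s • ee s := lp.ext (funext fun t => by
      rw [h, lp.coeFn_smul, Pi.smul_apply, smul_eq_mul]
      rcases eq_or_ne t s with rfl | e
      · rfl
      · simp [ee, lp.single_apply, e])
    rw [← ee_inner, ContinuousLinearMap.star_eq_adjoint, ContinuousLinearMap.adjoint_inner_right,
      this, inner_smul_left, ee_inner]
    rfl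

/-- the algebras -/
def DD (l : Filter ℕ) (r : Fin 2 → Fin 2 → Prop) : StarSubalgebra ℂ (Op HH) where
  carrier := {T | Dg T ∧ ∀ b b', r b b' →
    Tendsto (fun n => dd T (b, some n)) l (𝓝 (dd T (b', none)))}
  mul_mem' := fun {a b} ha hb => by
    have := dd_of (T := a * b) (d := dd a * dd b) fun ξ s => by
      rw [mul_apply_eq_comp, ha.1, hb.1, Pi.mul_apply, mul_assoc]
    exact ⟨this.2, fun i j h => this.1 ▸ (ha.2 i j h).mul (hb.2 i j h)⟩
  add_mem' := fun {a b} ha hb =>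
    ⟨fun ξ s => by rw [dd_add, add_mul, ← ha.1, ← hb.1]; rfl,
      fun i j h => (ha.2 i j h).add (hb.2 i j h)⟩
  algebraMap_mem' := fun c => by
    have := dd_of (T := algebraMap ℂ (Op HH) c) (d := fun _ => c) fun ξ s => rfl
    exact ⟨this.2, fun i j _ => this.1 ▸ tendsto_const_nhds⟩
  star_mem' := fun {a} ha => ⟨ha.1.star.2, fun i j h => ha.1.star.1 ▸ (ha.2 i j h).star⟩

theorem DD_closed (l : Filter ℕ) (r : Fin 2 → Fin 2 → Prop) : IsClosed (DD l r : Set (Op HH)) := by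
  have c1 : ∀ (ξ : HH) s, Continuous fun T : Op HH => T ξ s := fun ξ s => by
    simp only [← ee_inner]
    fun_prop
  refine isClosed_of_closure_subset fun T hT => ⟨fun ξ s => closure_minimal
    (t := {T : Op HH | T ξ s = dd T s * ξ s}) (fun T h => h.1 ξ s)
    (isClosed_eq (c1 _ _) ((c1 _ _).mul continuous_const)) hT, fun b b' h => ?_⟩
  refine Metric.tendsto_nhds.2 fun ε hε => ?_
  obtain ⟨T', h1, h2⟩ := Metric.mem_closure_iff.1 hT (ε / 3) (by positivity)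
  have h3 : ∀ s, dist (dd T s) (dd T' s) < ε / 3 := fun s => by
    rw [dist_eq_norm] at h2 ⊢
    exact (dd_le (T - T') s).trans_lt h2
  filter_upwards [Metric.tendsto_nhds.1 (h1.2 b b' h) (ε / 3) (by positivity)] with n hn
  have := dist_triangle4 (dd T (b, some n)) (dd T' (b, some n)) (dd T' (b', none)) (dd T (b', none))
  linarith [h3 (b, some n), h3 (b', none), dist_comm (dd T' (b', none)) (dd T (b', none))]

end Pool.Agent.H.MP_dad682_an
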