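import Pool.Agent.H.MP_dad682_an.A

set_option autoImplicit false

namespace Pool.Agent.H.MP_dad682_an

open Finset Filter Topology

theorem CC.norm_le {H K : Type} [NormedAddCommGroup H] [InnerProductSpace ℂ H]
    [NormedAddCommGroup K] [InnerProductSpace ℂ K] {E : Set (Op H)} {I : Set (Op K)}
    {u : Op H → Op K} (h : CC E I u) {x : Op H} (hx : x ∈ E) : ‖u x‖ ≤ ‖x‖ := by
  simpa only [nrm_one] using h.2.2 1 (fun _ _ => x) fun _ _ => hx

theorem inj : Inj (DD (hyperfilter ℕ) Eq : Set (Op HH)) := by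
  intro L _ _ _ E0 F hE _ _ u hu
  let E : Submodule ℂ (Op L) :=
    { carrier := E0
      add_mem' := fun {a b} ha hb => by simpa using hE.2 1 a ha b hb
      zero_mem' := hE.1
      smul_mem' := fun c x hx => by simpa using hE.2 c x hx 0 hE.1 }
  have u0 : u 0 = 0 := by simpa using hu.2.1 1 0 E.zero_mem 0 E.zero_mem
  have ex : ∀ s, ∃ g : Op L →ₗ[ℂ] ℂ, (∀ x, ‖g x‖ ≤ ‖x‖) ∧ ∀ x ∈ E, g x = dd (u x) s := by
    intro s
    let f : E →ₗ[ℂ] ℂ :=
      { toFun := fun x => dd (u x) s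
        map_add' := fun x y => by
          rw [← dd_add]
          simpa using congrArg (dd · s) (hu.2.1 1 x x.2 y y.2)
        map_smul' := fun c x => by
          rw [RingHom.id_apply, smul_eq_mul, ← dd_smul]
          simpa [u0] using congrArg (dd · s) (hu.2.1 c x x.2 0 E.zero_mem) }
    have hf : ∀ x, ‖f x‖ ≤ 1 * ‖x‖ := fun x =>
      (dd_le _ _).trans ((hu.norm_le x.2).trans (one_mul _).ge)
    obtain ⟨g, h1, h2⟩ := exists_extension_norm_eq E (f.mkContinuous 1 hf)
    refine ⟨g, fun x => (g.le_opNorm x).trans ?_, fun x hx => h1 ⟨x, hx⟩⟩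
    exact mul_le_of_le_one_left (norm_nonneg _) (h2 ▸ f.mkContinuous_norm_le zero_le_one hf)
  choose g g1 g2 using ex
  have ex2 : ∀ b x, ∃ z, ‖z‖ ≤ ‖x‖ ∧ Tendsto (fun n => g (b, some n) x) (hyperfilter ℕ) (𝓝 z) := by
    intro b x
    obtain ⟨z, hz, h⟩ := (isCompact_closedBall (0 : ℂ) ‖x‖).ultrafilter_le_nhds
      ((hyperfilter ℕ).map fun n => g (b, some n) x)
      (le_principal_iff.2 (mem_map.2 (univ_mem' fun n => mem_closedBall_zero_iff.2 (g1 _ _))))
    exact ⟨z, mem_closedBall_zero_iff.1 hz, h⟩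
  choose z z1 z2 using ex2
  let G : S → Op L →ₗ[ℂ] ℂ := fun s => match s with
    | (b, some n) => g (b, some n)
    | (b, none) =>
      { toFun := z b
        map_add' := fun x y => tendsto_nhds_unique (z2 b _) (by simpa using (z2 b x).add (z2 b y))
        map_smul' := fun c x => tendsto_nhds_unique (z2 b _) (by simpa using (z2 b x).const_mul c) }
  have G1 : ∀ s x, ‖G s x‖ ≤ ‖x‖ := by
    rintro ⟨b, _ | n⟩ x
    exacts [z1 b x, g1 _ x]
  choose v v1 v2 using fun x => exists_diag (fun s => G s x) fun s => G1 s x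
  have v3 : ∀ x, v x ∈ DD (hyperfilter ℕ) Eq := fun x => ⟨v1 x, by
    rintro b _ rfl
    rw [v2]
    exact z2 b x⟩
  refine ⟨v, ⟨fun x _ => v3 x, fun c x _ y _ => (v1 _).ext
    (add_mem (SMulMemClass.smul_mem c (v3 x)) (v3 y)).1 (funext fun s => ?_), fun k X _ =>
    nrm_le (nrm_spec X).1 (diag_bd (fun _ _ => v1 _) fun s w => ?_)⟩, fun x hx =>
    (v1 x).ext (hu.1 x hx).1 (funext fun s => ?_)⟩
  · simp [dd_add, dd_smul, v2]
  · simpa only [v2] using func_bd X (G s) (G1 s) w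
  · rw [v2]
    rcases s with ⟨b, _ | n⟩
    · exact tendsto_nhds_unique (z2 b x) (by simpa only [g2 _ x hx] using (hu.1 x hx).2 b b rfl)
    · exact g2 _ x hx

theorem DD_cstar (l : Filter ℕ) (r : Fin 2 → Fin 2 → Prop) : IsCStar (DD l r : Set (Op HH)) :=
  ⟨DD_closed l r, ⟨zero_mem _, fun c _ hx _ hy => add_mem (SMulMemClass.smul_mem c hx) hy⟩,
    one_mem _, fun _ hx _ hy => mul_mem hx hy, fun _ hx => star_mem hx⟩

theorem le_DD : DD atTop (fun _ _ => True) ≤ DD (hyperfilter ℕ) Eq := fun _ h =>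
  ⟨h.1, fun b b' _ => (h.2 b b' trivial).mono_left Nat.hyperfilter_le_atTop⟩

theorem rigid (u : Op HH → Op HH)
    (hu : CC (DD (hyperfilter ℕ) Eq : Set (Op HH)) (DD (hyperfilter ℕ) Eq : Set (Op HH)) u)
    (h : ∀ a ∈ DD atTop (fun _ _ => True), u a = a) : ∀ x ∈ DD (hyperfilter ℕ) Eq, u x = x := by
  classical
  have key : ∀ b n, ∀ x ∈ DD (hyperfilter ℕ) Eq, dd (u x) (b, some n) = dd x (b, some n) := by
    intro b n x hx
    obtain ⟨e, e1, e2⟩ := exists_diag (Pi.single (b, some n) 1) (c := 1) fun s => by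
      rw [Pi.single_apply]
      split_ifs <;> simp
    have eA : e ∈ DD atTop (fun _ _ => True) := ⟨e1, fun i j _ => by
      rw [e2, Pi.single_eq_of_ne (by simp)]
      refine tendsto_const_nhds.congr' ((eventually_gt_atTop n).mono fun k hk => ?_)
      exact (Pi.single_eq_of_ne (M := fun _ => ℂ) (i := (b, some n)) (i' := (i, some k))
        (by simp [hk.ne']) 1).symm⟩
    set y := (-dd x (b, some n)) • e + x with hy
    have yI : y ∈ DD (hyperfilter ℕ) Eq := add_mem (SMulMemClass.smul_mem _ (le_DD eA)) hx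
    have y0 : dd y (b, some n) = 0 := by simp [hy, dd_add, dd_smul, e2, -neg_smul]
    have y1 : dd (u y) (b, some n) = dd (u x) (b, some n) - dd x (b, some n) := by
      rw [hy, hu.2.1 _ _ (le_DD eA) _ hx, h e eA, dd_add, dd_smul, e2]
      simp [sub_eq_neg_add]
    rw [← sub_eq_zero, ← y1]
    set φ := dd (u y) (b, some n)
    set ε : ℝ := 1 / (‖φ‖ * ‖y‖ + 1) with hε
    have ε0 : 0 < ε := by positivity
    have mI : (ε * (starRingEnd ℂ) φ) • y + e ∈ DD (hyperfilter ℕ) Eq :=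
      add_mem (SMulMemClass.smul_mem _ yI) (le_DD eA)
    have n1 : ‖(ε * (starRingEnd ℂ) φ) • y + e‖ ≤ 1 := mI.1.norm_le zero_le_one fun s => by
      rw [dd_add, dd_smul, e2, Pi.single_apply]
      split_ifs with hs
      · simp [hs, y0]
      · rw [add_zero, norm_mul, norm_mul, Complex.norm_real, Complex.norm_conj,
          Real.norm_of_nonneg ε0.le, hε, mul_assoc, one_div, inv_mul_le_iff₀ (by positivity)]
        nlinarith [dd_le y s, norm_nonneg φ]
    have n2 := (dd_le _ (b, some n)).trans ((hu.norm_le mI).trans n1)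
    rw [hu.2.1 _ _ yI _ (le_DD eA), h e eA, dd_add, dd_smul, e2, Pi.single_eq_same, mul_assoc,
      Complex.conj_mul'] at n2
    norm_cast at n2
    have n3 := (le_abs_self _).trans n2
    have : ‖φ‖ ^ 2 ≤ 0 := by nlinarith
    exact norm_eq_zero.1 (pow_eq_zero_iff two_ne_zero |>.1 (le_antisymm this (by positivity)))
  intro x hx
  refine (hu.1 x hx).1.ext hx.1 (funext ?_)
  rintro ⟨b, _ | n⟩
  · exact tendsto_nhds_unique ((hu.1 x hx).2 b b rfl)
      (by simpa only [key b _ x hx] using hx.2 b b rfl)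
  · exact key b n x hx

theorem factor {k : ℕ} (ξ : Fin k → HH) (F : Finset S) (h : ∀ j, ∀ s ∉ F, ξ j s = 0) :
    ∃ (C : Fin k → Op HH) (ζ : HH), (∀ j, C j ∈ DD (hyperfilter ℕ) Eq) ∧
      (∀ s, ∑ j, ‖dd (C j) s‖ ^ 2 ≤ 1) ∧ (∀ j, C j ζ = ξ j) ∧ ‖ζ‖ ^ 2 = ∑ j, ‖ξ j‖ ^ 2 := by
  classical
  let z : S → ℝ := fun s => √(∑ j, ‖ξ j s‖ ^ 2)
  have z2 : ∀ s, ‖(z s : ℂ)‖ ^ 2 = ∑ j, ‖ξ j s‖ ^ 2 := fun s => by
    rw [Complex.norm_real, Real.norm_eq_abs, sq_abs, Real.sq_sqrt (by positivity)]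
  have hz := hasSum_sum (s := univ) fun j _ => hs (ξ j)
  let ζ : HH := ⟨fun s => z s, memℓp_gen (by simpa only [ENNReal.toReal_ofNat, Real.rpow_ofNat, z2]
    using hz.summable)⟩
  let c : Fin k → S → ℂ := fun j s => ξ j s / z s
  have c1 : ∀ s, ∑ j, ‖c j s‖ ^ 2 ≤ 1 := fun s => by
    simp only [c, norm_div, div_pow, ← sum_div, z2]
    exact div_self_le_one _
  let t : S → S := fun s => if s ∈ F then s else (s.1, none)
  choose C C1 C2 using fun j => exists_diag (fun s => c j (t s)) (c := 1) fun s =>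
    (pow_le_one_iff_of_nonneg (norm_nonneg _) two_ne_zero).1
      ((single_le_sum (f := fun j => ‖c j (t s)‖ ^ 2) (fun _ _ => by positivity)
        (mem_univ j)).trans (c1 _))
  refine ⟨C, ζ, fun j => ⟨C1 j, ?_⟩, fun s => by simpa only [C2] using c1 _,
    fun j => lp.ext (funext fun s => ?_), (hs ζ).unique (by simpa only [← z2] using hz)⟩
  · rintro b _ rfl
    rw [C2]
    refine (tendsto_const_nhds.congr' ?_).mono_left Nat.hyperfilter_le_atTop
    have : ∀ᶠ n : ℕ in cofinite, (b, some n) ∉ F :=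
      (Function.Injective.tendsto_cofinite (f := fun n : ℕ => ((b, some n) : S))
        fun _ _ h => by simpa using h).eventually F.eventually_cofinite_notMem
    rw [Nat.cofinite_eq_atTop] at this
    exact this.mono fun n hn => by simp [t, hn]
  · rw [C1, C2]
    change c j (t s) * z s = _
    by_cases hs : s ∈ F
    · rw [show t s = s from if_pos hs]
      rcases eq_or_ne (z s : ℂ) 0 with h0 | h0
      · have := z2 s
        rw [h0, norm_zero, zero_pow two_ne_zero, eq_comm,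
          sum_eq_zero_iff_of_nonneg fun _ _ => by positivity] at this
        rw [h0, mul_zero, norm_eq_zero.1 (pow_eq_zero_iff two_ne_zero |>.1 (this j (mem_univ _)))]
      · exact div_mul_cancel₀ _ h0
    · simp [z, h _ _ hs]

theorem norms_of {H : Type} [NormedAddCommGroup H] [InnerProductSpace ℂ H] {A B : Set (Op H)}
    (h : ∀ (k : ℕ) (X : Fin k → Fin k → Op H) (c : ℝ), 0 ≤ c → (∀ R C : Fin k → Op H,
      (∀ i, R i ∈ A ∧ C i ∈ A) → nrm (fun (_ : Unit) j => R j) ≤ 1 →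
      nrm (fun i (_ : Unit) => C i) ≤ 1 → ‖∑ i, ∑ j, R i * X i j * C j‖ ≤ c) → Bd X c) :
    Norms A B := by
  intro k X _
  set W := {t | ∃ R C : Fin k → Op H, (∀ i, R i ∈ A ∧ C i ∈ A) ∧
      nrm (fun (_ : Unit) j => R j) ≤ 1 ∧ nrm (fun i (_ : Unit) => C i) ≤ 1 ∧
      t = ‖∑ i, ∑ j, R i * X i j * C j‖} with hW
  have ub : nrm X ∈ upperBounds W := by
    rintro _ ⟨R, C, -, h1, h2, rfl⟩
    exact rxc_le X h1 h2
  have W0 : 0 ≤ sSup W := Real.sSup_nonneg (by
    rintro _ ⟨R, C, -, -, -, rfl⟩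
    exact norm_nonneg _)
  exact le_antisymm (nrm_le W0 (h k X _ W0 fun R C h1 h2 h3 =>
    le_csSup ⟨_, ub⟩ ⟨R, C, h1, h2, h3, rfl⟩)) (Real.sSup_le (fun _ h => ub h) (nrm_spec X).1)

theorem bd_lim {H ι : Type} [NormedAddCommGroup H] [InnerProductSpace ℂ H] {k : ℕ}
    {X : Fin k → Fin k → Op H} {c : ℝ} (l : Filter ι) [l.NeBot] (P : ι → H → H)
    (P1 : ∀ x, Tendsto (fun F => P F x) l (𝓝 x))
    (h : ∀ F (η ξ : Fin k → H), ‖∑ i, inner ℂ (P F (η i)) (∑ j, X i j (P F (ξ j)))‖ ^ 2 ≤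
      (∑ i, ‖P F (η i)‖ ^ 2) * (c ^ 2 * ∑ j, ‖P F (ξ j)‖ ^ 2)) : Bd X c := by
  refine bd_of_pair fun η ξ => ?_
  exact le_of_tendsto_of_tendsto'
    ((tendsto_finsetSum _ fun i _ => (P1 (η i)).inner (tendsto_finsetSum _ fun j _ =>
      ((X i j).continuous.tendsto _).comp (P1 (ξ j)))).norm.pow 2)
    ((tendsto_finsetSum _ fun i _ => (P1 (η i)).norm.pow 2).mul
      ((tendsto_finsetSum _ fun j _ => (P1 (ξ j)).norm.pow 2).const_mul _)) fun F => h F η ξ

theorem norms : Norms (DD (hyperfilter ℕ) Eq : Set (Op HH)) Set.univ := by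
  classical
  refine norms_of fun k X c c0 hc => ?_
  have fin : ∀ (F : Finset S) (η ξ : Fin k → HH), (∀ j, ∀ s ∉ F, η j s = 0) →
      (∀ j, ∀ s ∉ F, ξ j s = 0) → ‖∑ i, inner ℂ (η i) (∑ j, X i j (ξ j))‖ ^ 2 ≤
        (∑ i, ‖η i‖ ^ 2) * (c ^ 2 * ∑ j, ‖ξ j‖ ^ 2) := by
    intro F η ξ hη hξ
    obtain ⟨R, ω, R1, R2, R3, R4⟩ := factor η F hη
    obtain ⟨C, ζ, C1, C2, C3, C4⟩ := factor ξ F hξ
    have : ‖∑ i, ∑ j, star (R i) * X i j * C j‖ ≤ c := by
      refine hc _ _ (fun i => ⟨star_mem (R1 i), C1 i⟩)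
        (nrm_le zero_le_one (diag_bd (fun _ j => (R1 j).1.star.2) fun s v => ?_))
        (nrm_le zero_le_one (diag_bd (fun j _ => (C1 j).1) fun s v => ?_))
      · simp only [univ_unique, sum_singleton, (R1 _).1.star.1, Pi.star_apply, one_pow]
        refine le_trans ?_ ((sum_mul_sq_le_sq_mul_sq _ _ _).trans
          (mul_le_mul_of_nonneg_right (R2 s) (by positivity)))
        gcongr
        exact (norm_sum_le _ _).trans (le_of_eq (by simp))
      · simp only [univ_unique, sum_singleton, norm_mul, mul_pow, ← sum_mul, one_pow]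
        exact mul_le_mul_of_nonneg_right (C2 s) (by positivity)
    have e : ∑ i, inner ℂ (η i) (∑ j, X i j (ξ j)) =
        inner ℂ ω ((∑ i, ∑ j, star (R i) * X i j * C j) ζ) := by
      simp only [_root_.sum_apply, mul_apply_eq_comp, inner_sum, C3,
        ContinuousLinearMap.star_eq_adjoint, ContinuousLinearMap.adjoint_inner_right, R3]
    rw [e, ← R4, ← C4, ← mul_pow, ← mul_pow]
    gcongr
    exact (norm_inner_le_norm _ _).trans (mul_le_mul_of_nonneg_left
      ((ContinuousLinearMap.le_opNorm _ _).trans (by gcongr)) (norm_nonneg _))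
  let P : Finset S → HH → HH := fun F x => ∑ s ∈ F, lp.single 2 s (x s)
  have P1 : ∀ x, Tendsto (fun F => P F x) atTop (𝓝 x) := fun x => lp.hasSum_single (by norm_num) x
  have P2 : ∀ F x, ∀ s ∉ F, P F x s = 0 := fun F x s hs => by
    simp only [P, lp.coeFn_sum, Finset.sum_apply]
    exact sum_eq_zero fun t ht => lp.single_apply_ne _ _ _ fun e => hs (e ▸ ht)
  exact bd_lim atTop P P1 fun F η ξ => fin F _ _ (fun j => P2 F _) fun j => P2 F _

theorem not_norms : ¬ Norms (DD atTop (fun _ _ => True) : Set (Op HH)) Set.univ := by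
  intro h
  let X : Fin 2 → Fin 2 → Op HH := fun i j => (innerSL ℂ (ee (j, none))).smulRight (ee (i, none))
  have hX : ∀ i j x, X i j x = x (j, none) • ee (i, none) := fun i j x => by simp [X, ee_inner]
  have h1 := (nrm_spec X).2 fun j => ee (j, none)
  have e1 : ∀ j : Fin 2, ee (j, none) (j, none) = 1 := fun j => by simp [ee]
  simp only [hX, e1, ← sum_smul, norm_smul, ee_norm] at h1
  have h2 : nrm X ≤ √2 := by
    rw [h 2 X fun _ _ => trivial]
    refine Real.sSup_le ?_ (Real.sqrt_nonneg _)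
    rintro _ ⟨R, C, hA, hR, hC, rfl⟩
    refine norm_le_sq (Real.sqrt_nonneg _) fun x => ?_
    have a1 := bd_one hR fun i => ee (i, none)
    have a2 := bd_one hC fun _ => ee (0, none)
    have a3 : ∀ j : Fin 2, dd (C j) (j, none) = dd (C j) (0, none) := fun j =>
      tendsto_nhds_unique ((hA j).2.2 0 j trivial) ((hA j).2.2 0 0 trivial)
    have a4 : ∑ j : Fin 2, ‖dd (C j) (j, none)‖ ^ 2 ≤ 1 := by
      simp only [univ_unique, sum_singleton, ee_norm, one_pow] at a2
      refine le_trans (sum_le_sum fun j _ => ?_) a2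
      rw [a3]
      gcongr
      exact lp.norm_apply_le_norm (by norm_num) (C j (ee (0, none))) _
    have a5 : ∑ j : Fin 2, ‖x (j, none)‖ ^ 2 ≤ ‖x‖ ^ 2 := by
      have := sum_le_hasSum (univ.map ⟨fun j : Fin 2 => ((j, none) : S), fun _ _ h => by
        simpa using h⟩) (fun _ _ => by positivity) (hs x)
      simpa only [sum_map, Function.Embedding.coeFn_mk] using this
    have a6 : ‖∑ j : Fin 2, dd (C j) (j, none) * x (j, none)‖ ^ 2 ≤ ‖x‖ ^ 2 := by
      refine le_trans ?_ ((sum_mul_sq_le_sq_mul_sq _ _ _).trans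
        ((mul_le_mul a4 a5 (by positivity) zero_le_one).trans (one_mul _).le))
      gcongr
      exact (norm_sum_le _ _).trans (le_of_eq (by simp))
    simp only [univ_unique, ee_norm, one_pow, sum_const, card_univ, card_singleton, Nat.cast_one,
      Fintype.card_fin, nsmul_eq_mul, mul_one, Nat.cast_ofNat, one_mul] at a1
    simp only [_root_.sum_apply, mul_apply_eq_comp, hX, map_smul, ← sum_smul, ← smul_sum,
      (hA _).2.1 _ _, norm_smul, mul_pow, Real.sq_sqrt zero_le_two]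
    rw [mul_comm]
    gcongr
  have h3 := pow_le_pow_left₀ (nrm_spec X).1 h2 2
  rw [Real.sq_sqrt zero_le_two] at h3
  norm_num at h1
  linarith

end Pool.Agent.H.MP_dad682_an
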