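import Mathlib

set_option autoImplicit false

namespace Pool.Agent.H.MP_dad682_an

/-- bounded operators on a Hilbert space -/
abbrev Op (H : Type) [NormedAddCommGroup H] [InnerProductSpace ℂ H] : Type := H →L[ℂ] H

variable {H K : Type} [NormedAddCommGroup H] [InnerProductSpace ℂ H]
  [NormedAddCommGroup K] [InnerProductSpace ℂ K]

/-- the norm of a matrix of operators as an operator `H^n → H^m` -/
noncomputable def nrm {m n : Type} [Fintype m] [Fintype n] (X : m → n → Op H) : ℝ :=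
  sInf {c | 0 ≤ c ∧ ∀ ξ : n → H, ∑ i, ‖∑ j, X i j (ξ j)‖ ^ 2 ≤ c ^ 2 * ∑ j, ‖ξ j‖ ^ 2}

/-- `S` norms `B` -/
def Norms (S B : Set (Op H)) : Prop :=
  ∀ (k : ℕ) (X : Fin k → Fin k → Op H), (∀ i j, X i j ∈ B) →
    nrm X = sSup {t | ∃ R C : Fin k → Op H, (∀ i, R i ∈ S ∧ C i ∈ S) ∧
      nrm (fun (_ : Unit) j => R j) ≤ 1 ∧ nrm (fun i (_ : Unit) => C i) ≤ 1 ∧
      t = ‖∑ i, ∑ j, R i * X i j * C j‖}

/-- `u` restricted to `E` is a linear complete contraction from `E` into `I` -/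
def CC (E : Set (Op H)) (I : Set (Op K)) (u : Op H → Op K) : Prop :=
  (∀ x ∈ E, u x ∈ I) ∧ (∀ (c : ℂ), ∀ x ∈ E, ∀ y ∈ E, u (c • x + y) = c • u x + u y) ∧
    ∀ (k : ℕ) (X : Fin k → Fin k → Op H), (∀ i j, X i j ∈ E) →
      nrm (fun i j => u (X i j)) ≤ nrm X

/-- `E` is a linear subspace -/
def IsSub (E : Set (Op H)) : Prop := 0 ∈ E ∧ ∀ (c : ℂ), ∀ x ∈ E, ∀ y ∈ E, c • x + y ∈ E

/-- `A` is a unital C*-subalgebra of `B(H)` -/
def IsCStar [CompleteSpace H] (A : Set (Op H)) : Prop :=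
  IsClosed A ∧ IsSub A ∧ 1 ∈ A ∧ (∀ x ∈ A, ∀ y ∈ A, x * y ∈ A) ∧ ∀ x ∈ A, star x ∈ A

/-- `I` is an injective operator space: complete contractions into `I` extend from any operator
space `E` to any larger operator space `F` -/
def Inj (I : Set (Op K)) : Prop :=
  ∀ (L : Type) [NormedAddCommGroup L] [InnerProductSpace ℂ L] [CompleteSpace L]
    (E F : Set (Op L)), IsSub E → IsSub F → E ⊆ F → ∀ u : Op L → Op K, CC E I u →
      ∃ v : Op L → Op K, CC F I v ∧ ∀ x ∈ E, v x = u x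

end Pool.Agent.H.MP_dad682_an
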